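import Pool.Agent.Helper73.SQ.MAIN
import Pool.Agent.Helper73.AA.C9

/-!
# MP_b2273a_co: almost all labelled trees are 1-sequentially additive
-/

set_option autoImplicit false

namespace Pool.Agent.Results.MP_b2273a_co.AlmostAllTrees

open Finset Filter Topology

open Classical in
/-- The proportion, among the trees with vertex set `Fin n`, of those that have a labelling as in the frozen statement, tends to `1` as `n → ∞`. -/
theorem result :
    Tendsto (fun n : ℕ => ((univ.filter fun G : SimpleGraph (Fin n) => G.IsTree ∧
        ∃ h : Fin n → ℕ,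
          Function.Injective
            (Sum.elim h
              (fun e : G.edgeSet =>
                Sym2.lift ⟨fun u v => h u + h v, fun u v => add_comm (h u) (h v)⟩ e.1)) ∧
          Set.range
            (Sum.elim h
              (fun e : G.edgeSet =>
                Sym2.lift ⟨fun u v => h u + h v, fun u v => add_comm (h u) (h v)⟩ e.1))
            = Set.Icc 1 (Fintype.card (Fin n) + Nat.card G.edgeSet)).card : ℝ) /
      (univ.filter fun G : SimpleGraph (Fin n) => G.IsTree).card) atTop (𝓝 1) := by
  refine AA.almost_all_tail (fun n G => ∃ h : Fin n → ℕ,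
          Function.Injective
            (Sum.elim h
              (fun e : G.edgeSet =>
                Sym2.lift ⟨fun u v => h u + h v, fun u v => add_comm (h u) (h v)⟩ e.1)) ∧
          Set.range
            (Sum.elim h
              (fun e : G.edgeSet =>
                Sym2.lift ⟨fun u v => h u + h v, fun u v => add_comm (h u) (h v)⟩ e.1))
            = Set.Icc 1 (Fintype.card (Fin n) + Nat.card G.edgeSet)) ?_
  obtain ⟨τ, hτ, hmain⟩ := SQ.sq_tail
  refine ⟨τ, hτ, fun D => ?_⟩
  obtain ⟨δ, hδ, n₀, H⟩ := hmain D
  refine ⟨δ, hδ, n₀, ?_⟩
  intro n G hn hG hdeg hsum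
  refine H (Fin n) G (by rwa [Fintype.card_fin]) hG ?_ ?_
  · intro v
    rw [Fintype.card_fin]
    convert hdeg v
  · rw [Fintype.card_fin]
    convert hsum

end Pool.Agent.Results.MP_b2273a_co.AlmostAllTrees
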