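import Pool.Agent.Helper19.SeqAdd.Main

/-!
# Trees with few non-leaf vertices are 1-sequentially additive

Every tree with `n` vertices of which at most `m` are not leaves (have degree at least two) is
1-sequentially additive if `n ≥ 32 ^ m`.
-/

namespace Pool.Agent.Results.MP_b2273a_co.FewInternalVertices

theorem result (m : ℕ) (V : Type) [Fintype V] (G : SimpleGraph V) (hG : G.IsTree)
    -- at most `m` vertices have degree at least two
    (hm : {w : V | 2 ≤ (G.neighborSet w).ncard}.ncard ≤ m)
    -- there are at least `32 ^ m` vertices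
    (hn : 32 ^ m ≤ Fintype.card V) :
    ∃ h : V → ℕ,
      Function.Injective
        (Sum.elim h
          (fun e : G.edgeSet =>
            Sym2.lift ⟨fun u v => h u + h v, fun u v => add_comm (h u) (h v)⟩ e.1)) ∧
      Set.range
        (Sum.elim h
          (fun e : G.edgeSet =>
            Sym2.lift ⟨fun u v => h u + h v, fun u v => add_comm (h u) (h v)⟩ e.1))
        = Set.Icc 1 (Fintype.card V + Nat.card G.edgeSet) := by
  classical
  obtain ⟨v, par, f, h1, h2⟩ := Pool.Agent.Helper19.SeqAdd.main G hG m hm hn
  exact ⟨f, Pool.Agent.Helper19.SeqAdd.conclude G hG v par h1 f h2⟩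

end Pool.Agent.Results.MP_b2273a_co.FewInternalVertices
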