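import Pool.Agent.Helper73.SQ.MAIN

/-!
# MP_b2273a_co: large trees with small degrees and a small tail of the degree sequence are 1-sequentially additive

In particular: for every `D` all trees of maximum degree at most `D` with sufficiently many vertices are 1-sequentially additive.
-/

set_option autoImplicit false

namespace Pool.Agent.Results.MP_b2273a_co.SmallDegreeTail

open Finset

open Classical in
/-- There is `τ > 0` such that for every `D` there are `δ > 0` and `n₀` such that every tree `G` on `n ≥ n₀` vertices in which all degrees are at most `δ n` and in which the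
sum of the degrees of the vertices of degree `> D` is at most `τ n` has a labelling as in the frozen statement. -/
theorem result :
    ∃ τ : ℝ, 0 < τ ∧ ∀ D : ℕ, ∃ δ : ℝ, 0 < δ ∧ ∃ n₀ : ℕ, ∀ (V : Type) [Fintype V]
      (G : SimpleGraph V), n₀ ≤ Fintype.card V → G.IsTree →
      (∀ v, (G.degree v : ℝ) ≤ δ * Fintype.card V) →
      ((∑ v ∈ univ.filter (fun v => D < G.degree v), G.degree v : ℕ) : ℝ) ≤ τ * Fintype.card V →
      ∃ h : V → ℕ,
        Function.Injective
          (Sum.elim h
            (fun e : G.edgeSet =>
              Sym2.lift ⟨fun u v => h u + h v, fun u v => add_comm (h u) (h v)⟩ e.1)) ∧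
        Set.range
          (Sum.elim h
            (fun e : G.edgeSet =>
              Sym2.lift ⟨fun u v => h u + h v, fun u v => add_comm (h u) (h v)⟩ e.1))
          = Set.Icc 1 (Fintype.card V + Nat.card G.edgeSet) :=
  SQ.sq_tail

end Pool.Agent.Results.MP_b2273a_co.SmallDegreeTail
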